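import Pool.Agent.N513.CE.Stm

/-!
# Project CE: the Hall group is finitely generated
-/

set_option autoImplicit false

namespace Pool.Agent.N75.CE

open Pool.Agent.N513.CE

noncomputable section

variable {D : Type} [Group D]

/-- the diagonal elements -/
def dg : D →* Hall ℤ D where
  toFun d := ⟨0, 0, 0, d⟩
  map_one' := rfl
  map_mul' a b := by
    ext1
    · simp only [Hall.mul_U, zero_mul, add_zero]
    · simp only [Hall.mul_V, mul_zero, add_zero]
    · simp only [Hall.mul_W, mul_zero, add_zero]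
    · rfl

/-- the first entry -/
def eU (U : MonoidAlgebra ℤ D) : Hall ℤ D := ⟨U, 0, 0, 1⟩

/-- the second entry -/
def eV (V : MonoidAlgebra ℤ D) : Hall ℤ D := ⟨0, V, 0, 1⟩

theorem eU_add (U U' : MonoidAlgebra ℤ D) : eU (U + U') = eU U * eU U' := by
  ext1
  · simp only [Hall.mul_U, eU, map_one, mul_one]
    rw [add_comm]
  · simp only [Hall.mul_V, eU, mul_zero, add_zero]
  · simp only [Hall.mul_W, eU, mul_zero, add_zero]
  · simp only [Hall.mul_h, eU, mul_one]

theorem eV_add (U U' : MonoidAlgebra ℤ D) : eV (U + U') = eV U * eV U' := by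
  ext1
  · simp only [Hall.mul_U, eV, zero_mul, add_zero]
  · simp only [Hall.mul_V, eV, map_one, one_mul]
  · simp only [Hall.mul_W, eV, zero_mul, add_zero]
  · simp only [Hall.mul_h, eV, mul_one]

theorem eU_zero : eU (0 : MonoidAlgebra ℤ D) = 1 := rfl
theorem eV_zero : eV (0 : MonoidAlgebra ℤ D) = 1 := rfl

theorem eU_of (d : D) : eU (MonoidAlgebra.of ℤ D d) = (dg d)⁻¹ * (eU 1 * dg d) := by
  rw [eq_inv_mul_iff_mul_eq]
  ext1
  · simp only [Hall.mul_U, eU, dg, MonoidHom.coe_mk, OneHom.coe_mk, zero_mul, add_zero, one_mul,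
      zero_add]
  · simp only [Hall.mul_V, eU, dg, MonoidHom.coe_mk, OneHom.coe_mk, mul_zero, add_zero]
  · simp only [Hall.mul_W, eU, dg, MonoidHom.coe_mk, OneHom.coe_mk, mul_zero, add_zero]
  · simp only [Hall.mul_h, eU, dg, MonoidHom.coe_mk, OneHom.coe_mk, mul_one, one_mul]

theorem eV_of (d : D) : eV (MonoidAlgebra.of ℤ D d) = dg d * eV 1 * (dg d)⁻¹ := by
  rw [eq_mul_inv_iff_mul_eq]
  ext1
  · simp only [Hall.mul_U, eV, dg, MonoidHom.coe_mk, OneHom.coe_mk, zero_mul, add_zero]
  · simp only [Hall.mul_V, eV, dg, MonoidHom.coe_mk, OneHom.coe_mk, mul_zero, add_zero, zero_add,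
      mul_one]
  · simp only [Hall.mul_W, eV, dg, MonoidHom.coe_mk, OneHom.coe_mk, mul_zero, zero_mul, add_zero]
  · simp only [Hall.mul_h, eV, dg, MonoidHom.coe_mk, OneHom.coe_mk, mul_one, one_mul]

theorem z_eq (W : MonoidAlgebra ℤ D) : Hall.z W = (eU W * eV 1) * (eV 1 * eU W)⁻¹ := by
  rw [eq_mul_inv_iff_mul_eq]
  ext1
  · simp only [Hall.mul_U, eU, eV, Hall.z, map_one, mul_one, zero_mul, add_zero, zero_add]
  · simp only [Hall.mul_V, eU, eV, Hall.z, map_one, mul_one, mul_zero, add_zero, zero_add]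
  · simp only [Hall.mul_W, Hall.mul_U, Hall.mul_V, eU, eV, Hall.z, map_one, mul_one, mul_zero,
      zero_mul, add_zero, zero_add]
  · simp only [Hall.mul_h, eU, eV, Hall.z, mul_one]

theorem all_eq (x : Hall ℤ D) : x = Hall.z x.W * eV x.V * dg x.h * eU x.U := by
  ext1
  · simp only [Hall.mul_U, eU, eV, Hall.z, dg, MonoidHom.coe_mk, OneHom.coe_mk, map_one, mul_one,
      zero_mul, add_zero, zero_add]
  · simp only [Hall.mul_V, Hall.mul_h, eU, eV, Hall.z, dg, MonoidHom.coe_mk, OneHom.coe_mk, map_one,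
      mul_one, one_mul, mul_zero, add_zero, zero_add]
  · simp only [Hall.mul_W, Hall.mul_U, Hall.mul_V, eU, eV, Hall.z, dg, MonoidHom.coe_mk,
      OneHom.coe_mk, map_one, mul_one, mul_zero, zero_mul, add_zero, zero_add]
  · simp only [Hall.mul_h, eU, eV, Hall.z, dg, MonoidHom.coe_mk, OneHom.coe_mk, mul_one, one_mul]

/-- an additive subgroup which contains the group elements is everything -/
theorem top_of (A : AddSubgroup (MonoidAlgebra ℤ D)) (h : ∀ d, MonoidAlgebra.of ℤ D d ∈ A)
    (x : MonoidAlgebra ℤ D) : x ∈ A := by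
  induction x using MonoidAlgebra.induction_on with
  | of g => exact h g
  | add f g hf hg => exact A.add_mem hf hg
  | smul c f hf =>
    exact A.zsmul_mem hf c

theorem t_HFG : S_HFG := by
  intro D _ hD
  obtain ⟨S, hS, hfin⟩ := Group.fg_iff.1 hD
  rw [Group.fg_iff]
  refine ⟨dg '' S ∪ {eU 1, eV 1}, ?_, (hfin.image _).union (Set.toFinite _)⟩
  set H : Subgroup (Hall ℤ D) := Subgroup.closure (dg '' S ∪ {eU 1, eV 1}) with hH
  have hx : eU 1 ∈ H := Subgroup.subset_closure (Or.inr (Or.inl rfl))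
  have hy : eV 1 ∈ H := Subgroup.subset_closure (Or.inr (Or.inr rfl))
  have hd : ∀ d, dg d ∈ H := by
    have h1 : Subgroup.closure S ≤ H.comap dg := by
      rw [Subgroup.closure_le]
      intro s hs
      exact Subgroup.subset_closure (Or.inl ⟨s, hs, rfl⟩)
    intro d
    have h2 : d ∈ Subgroup.closure S := by rw [hS]; exact Subgroup.mem_top d
    exact h1 h2
  let AU : AddSubgroup (MonoidAlgebra ℤ D) :=
    { carrier := {U | eU U ∈ H}
      zero_mem' := H.one_mem
      add_mem' := by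
        intro a b ha hb
        show eU (a + b) ∈ H
        rw [eU_add]
        exact H.mul_mem ha hb
      neg_mem' := by
        intro a ha
        have h1 : eU (-a) = (eU a)⁻¹ := by
          rw [eq_inv_iff_mul_eq_one, ← eU_add, neg_add_cancel]
          rfl
        show eU (-a) ∈ H
        rw [h1]
        exact H.inv_mem ha }
  let AV : AddSubgroup (MonoidAlgebra ℤ D) :=
    { carrier := {U | eV U ∈ H}
      zero_mem' := H.one_mem
      add_mem' := by
        intro a b ha hb
        show eV (a + b) ∈ H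
        rw [eV_add]
        exact H.mul_mem ha hb
      neg_mem' := by
        intro a ha
        have h1 : eV (-a) = (eV a)⁻¹ := by
          rw [eq_inv_iff_mul_eq_one, ← eV_add, neg_add_cancel]
          rfl
        show eV (-a) ∈ H
        rw [h1]
        exact H.inv_mem ha }
  have hU : ∀ U, eU U ∈ H := top_of AU fun d => by
    show eU (MonoidAlgebra.of ℤ D d) ∈ H
    rw [eU_of]
    exact H.mul_mem (H.inv_mem (hd d)) (H.mul_mem hx (hd d))
  have hV : ∀ V, eV V ∈ H := top_of AV fun d => by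
    show eV (MonoidAlgebra.of ℤ D d) ∈ H
    rw [eV_of]
    exact H.mul_mem (H.mul_mem (hd d) hy) (H.inv_mem (hd d))
  rw [eq_top_iff]
  intro x _
  rw [all_eq x, z_eq]
  exact H.mul_mem (H.mul_mem (H.mul_mem (H.mul_mem (H.mul_mem (hU _) hy)
    (H.inv_mem (H.mul_mem hy (hU _)))) (hV _)) (hd _)) (hU _)

end

end Pool.Agent.N75.CE
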